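import Pool.Agent.W221.NS.Stm

/-!
Auxiliary estimates at one time for the induction step.
-/

open MeasureTheory Set Metric
open scoped ContDiff

namespace W612.MD

open H459R3.NS W221.NS

lemma rr_pos (k : ℕ) : 0 < rr k := by unfold rr; positivity

lemma rr_le {i k : ℕ} (h : i ≤ k) : rr k ≤ rr i := by
  unfold rr; exact pow_le_pow_of_le_one (by norm_num) (by norm_num) h

lemma rr_sq_le {i k : ℕ} (h : i ≤ k) : rr k ^ 2 ≤ rr i ^ 2 :=
  pow_le_pow_left₀ (rr_pos k).le (rr_le h) 2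

lemma rr_two : rr 2 = 1 / 4 := by unfold rr; norm_num

lemma nsq_nonneg (v : V → V) (z : V) : 0 ≤ nsq v z :=
  Finset.sum_nonneg fun _ _ => sq_nonneg _

lemma gsq_nonneg (v : V → V) (z : V) : 0 ≤ gsq v z :=
  Finset.sum_nonneg fun _ _ => Finset.sum_nonneg fun _ _ => sq_nonneg _

lemma A2_nonneg (a : V) (ρ : ℝ) (v : V → V) : 0 ≤ A2 a ρ v :=
  integral_nonneg fun z => nsq_nonneg v z

lemma B2_nonneg (a : V) (ρ : ℝ) (v : V → V) : 0 ≤ B2 a ρ v :=
  integral_nonneg fun z => gsq_nonneg v z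

lemma nsq_cont {v : V → V} (hv : ContDiff ℝ ∞ v) : Continuous (nsq v) := by
  have := hv.continuous
  unfold nsq
  fun_prop

lemma comp_smooth {v : V → V} (hv : ContDiff ℝ ∞ v) (i : Fin 3) :
    ContDiff ℝ ∞ (fun y => v y i) := contDiff_pi.1 hv i

lemma pd_cont {f : V → ℝ} (hf : ContDiff ℝ ∞ f) (j : Fin 3) : Continuous (pd j f) := by
  unfold pd
  exact (hf.continuous_fderiv (by simp)).clm_apply continuous_const

lemma gsq_cont {v : V → V} (hv : ContDiff ℝ ∞ v) : Continuous (gsq v) := by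
  unfold gsq
  exact continuous_finsetSum _ fun i _ => continuous_finsetSum _ fun j _ =>
    (pd_cont (comp_smooth hv i) j).pow 2

lemma slice_smooth {E : Type*} [NormedAddCommGroup E] [NormedSpace ℝ E] {f : ℝ → V → E}
    {I : Set ℝ} (h : ContDiffOn ℝ ∞ (fun z : ℝ × V => f z.1 z.2) (I ×ˢ univ)) {t : ℝ}
    (ht : t ∈ I) : ContDiff ℝ ∞ (f t) := by
  rw [← contDiffOn_univ]
  have h1 : ContDiffOn ℝ ∞ (fun z : V => ((t, z) : ℝ × V)) univ := by
    apply ContDiff.contDiffOn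
    fun_prop
  exact h.comp h1 (fun z _ => ⟨ht, trivial⟩)

lemma pd_zero_on {f : V → ℝ} {U : Set V} (hU : IsOpen U) (h : ∀ z ∈ U, f z = 0) (j : Fin 3) :
    ∀ z ∈ U, pd j f z = 0 := by
  intro z hz
  have h1 : f =ᶠ[nhds z] fun _ => (0 : ℝ) := by
    filter_upwards [hU.mem_nhds hz] with y hy using h y hy
  unfold pd
  rw [h1.fderiv_eq]
  simp

lemma not_mem_of_ball {a z : V} (ha : a ∈ ball (0 : V) (1 / 4)) (hz : z ∉ ball (0 : V) (3 / 4)) :
    z ∉ closedBall a (1 / 4) := by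
  intro h
  apply hz
  rw [mem_ball] at *
  rw [mem_closedBall] at h
  have := dist_triangle z a 0
  linarith

lemma heat_term {Φ : ℝ → V → ℝ} {v : V → V} (hv : ContDiff ℝ ∞ v) {t M : ℝ} (hM : 0 ≤ M)
    {a : V} (ha : a ∈ ball (0 : V) (1 / 4)) (hz : ∀ s, ∀ z ∉ ball a (1 / 4), Φ s z = 0)
    (hb : ∀ z, deriv (fun s => Φ s z) t + lap (Φ t) z ≤ M) :
    ∫ z, nsq v z * (deriv (fun s => Φ s z) t + lap (Φ t) z) ≤ M * A2 0 (3 / 4) v := by
  have hz' : ∀ s, ∀ z ∉ closedBall a (1 / 4), Φ s z = 0 := fun s z h =>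
    hz s z fun h' => h (ball_subset_closedBall h')
  have h0 : ∀ z, z ∉ ball (0 : V) (3 / 4) →
      nsq v z * (deriv (fun s => Φ s z) t + lap (Φ t) z) = 0 := by
    intro z h
    have h1 := not_mem_of_ball ha h
    have h2 : (fun s => Φ s z) = fun _ => 0 := by
      funext s
      exact hz' s z h1
    have hU : IsOpen (closedBall a (1 / 4))ᶜ := isClosed_closedBall.isOpen_compl
    have h3 : lap (Φ t) z = 0 := by
      unfold lap
      apply Finset.sum_eq_zero
      intro j _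
      exact pd_zero_on hU (pd_zero_on hU (fun y hy => hz' t y hy) j) j z h1
    rw [h2, h3]
    simp
  rw [← setIntegral_eq_integral_of_forall_compl_eq_zero h0]
  unfold A2
  rw [← integral_const_mul]
  have hni : IntegrableOn (fun z => M * nsq v z) (ball (0 : V) (3 / 4)) := by
    apply Integrable.const_mul
    exact ((nsq_cont hv).continuousOn.integrableOn_compact (isCompact_closedBall 0 (3 / 4))).mono_set
      ball_subset_closedBall
  by_cases hi : IntegrableOn (fun z => nsq v z * (deriv (fun s => Φ s z) t + lap (Φ t) z))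
      (ball (0 : V) (3 / 4))
  · apply setIntegral_mono hi hni
    intro z
    simp only
    rw [mul_comm M]
    exact mul_le_mul_of_nonneg_left (hb z) (nsq_nonneg v z)
  · rw [integral_undef hi]
    exact integral_nonneg fun z => mul_nonneg hM (nsq_nonneg v z)

lemma low_term {f ψ : V → ℝ} (hf : Continuous f) (hf0 : ∀ z, 0 ≤ f z) (hψ : Continuous ψ)
    (hψ0 : ∀ z, 0 ≤ ψ z) {a : V} {ρ : ℝ} (hz : ∀ z ∉ ball (0 : V) 1, ψ z = 0) {κ : ℝ}
    (hlow : ∀ z ∈ ball a ρ, κ ≤ ψ z) : κ * ∫ z in ball a ρ, f z ≤ ∫ z, f z * ψ z := by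
  have hi : Integrable (fun z => f z * ψ z) := by
    apply (hf.mul hψ).integrable_of_hasCompactSupport
    apply HasCompactSupport.intro (isCompact_closedBall (0 : V) 1)
    intro z h
    show f z * ψ z = 0
    rw [hz z fun h' => h (ball_subset_closedBall h'), mul_zero]
  rw [← integral_const_mul]
  refine le_trans (b := ∫ z in ball a ρ, f z * ψ z) ?_ ?_
  · apply setIntegral_mono_on _ hi.integrableOn measurableSet_ball
    · intro z h
      rw [mul_comm]
      exact mul_le_mul_of_nonneg_left (hlow z h) (hf0 z)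
    · apply Integrable.const_mul
      exact (hf.continuousOn.integrableOn_compact (isCompact_closedBall a ρ)).mono_set
        ball_subset_closedBall
  · exact setIntegral_le_integral hi (Filter.Eventually.of_forall fun z =>
      mul_nonneg (hf0 z) (hψ0 z))

lemma pk_term {CL Λ : ℝ} (hCL : 0 < CL)
    (hL : ∀ v : V → V, ContDiff ℝ ∞ v → ∀ (a : V) (j k : ℕ), j ≤ k →
      √(L4 a (rr (j + 1)) v) ≤ CL * √(rr k) * (4 ^ k * A2 a (rr j) v + B2 a (rr j) v))
    (hΛ : 0 ≤ Λ) {v : V → V} (hv : ContDiff ℝ ∞ v) {a : V} {k : ℕ} (hk : 5 ≤ k)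
    (hA : ∀ i, 2 ≤ i → i ≤ k → A2 a (rr i) v ≤ Λ / 8 ^ i) :
    √(A2 a (rr k) v) * PS a v k ≤ CL * √Λ * (√(1 / 8 ^ k) * √(rr k) *
      (16 ^ k * (4 ^ k * (Λ / 8 ^ (k - 3)) + B2 a (rr (k - 3)) v)
        + ∑ j ∈ Finset.Ico 3 (k - 2), √(32 ^ j) * √(8 ^ k) *
          (4 ^ k * (Λ / 8 ^ (j - 1)) + B2 a (rr (j - 1)) v))) := by
  have h1 : √(A2 a (rr k) v) ≤ √Λ * √(1 / 8 ^ k) := by
    rw [← Real.sqrt_mul hΛ, mul_one_div]
    exact Real.sqrt_le_sqrt (hA k (by omega) le_rfl)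
  have h2 : ∀ i, 2 ≤ i → i ≤ k → √(L4 a (rr (i + 1)) v)
      ≤ CL * √(rr k) * (4 ^ k * (Λ / 8 ^ i) + B2 a (rr i) v) := by
    intro i hi hik
    refine (hL v hv a i k hik).trans ?_
    apply mul_le_mul_of_nonneg_left _ (by positivity)
    have := mul_le_mul_of_nonneg_left (hA i hi hik) (by positivity : (0 : ℝ) ≤ 4 ^ k)
    linarith
  have h3 : PS a v k ≤ CL * √(rr k) *
      (16 ^ k * (4 ^ k * (Λ / 8 ^ (k - 3)) + B2 a (rr (k - 3)) v)
        + ∑ j ∈ Finset.Ico 3 (k - 2), √(32 ^ j) * √(8 ^ k) *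
          (4 ^ k * (Λ / 8 ^ (j - 1)) + B2 a (rr (j - 1)) v)) := by
    unfold PS
    rw [mul_add, Finset.mul_sum]
    apply add_le_add
    · have := h2 (k - 3) (by omega) (by omega)
      rw [show k - 3 + 1 = k - 2 by omega] at this
      calc (16 : ℝ) ^ k * √(L4 a (rr (k - 2)) v) ≤ 16 ^ k * (CL * √(rr k) *
            (4 ^ k * (Λ / 8 ^ (k - 3)) + B2 a (rr (k - 3)) v)) :=
            mul_le_mul_of_nonneg_left this (by positivity)
        _ = _ := by ring
    · apply Finset.sum_le_sum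
      intro j hj
      rw [Finset.mem_Ico] at hj
      have := h2 (j - 1) (by omega) (by omega)
      rw [show j - 1 + 1 = j by omega] at this
      calc √(32 ^ j) * √(8 ^ k) * √(L4 a (rr j) v) ≤ √(32 ^ j) * √(8 ^ k) * (CL * √(rr k) *
            (4 ^ k * (Λ / 8 ^ (j - 1)) + B2 a (rr (j - 1)) v)) :=
            mul_le_mul_of_nonneg_left this (by positivity)
        _ = _ := by ring
  have h4 : 0 ≤ PS a v k := by
    unfold PS
    positivity
  calc √(A2 a (rr k) v) * PS a v k ≤ (√Λ * √(1 / 8 ^ k)) * (CL * √(rr k) *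
      (16 ^ k * (4 ^ k * (Λ / 8 ^ (k - 3)) + B2 a (rr (k - 3)) v)
        + ∑ j ∈ Finset.Ico 3 (k - 2), √(32 ^ j) * √(8 ^ k) *
          (4 ^ k * (Λ / 8 ^ (j - 1)) + B2 a (rr (j - 1)) v))) :=
        mul_le_mul h1 h3 h4 (by positivity)
    _ = _ := by ring

end W612.MD
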