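import Pool.Agent.W612.MD.Absorb
import Pool.Agent.W612.MD.Slc

/-!
The induction step of the local regularity theorem.
-/

open MeasureTheory Set Metric
open scoped ContDiff

namespace W612.MD

open H459R3.NS W221.NS

theorem t_STEP (hT : S_TF) (hE : S_EN) (hP : S_PK) (hL : S_L4) (hS : S_TSUM) (hC : S_CT) :
    S_STEP := by
  obtain ⟨M, c, hM1, hc, hTF⟩ := hT
  obtain ⟨CP, hCP, hPK⟩ := hP M hM1
  obtain ⟨CL, hCL, hL4⟩ := hL
  obtain ⟨CS, hCS, hTS⟩ := hS
  have hM0 : 0 ≤ M := by linarith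
  obtain ⟨C₁, hC₁⟩ : ∃ C₁, C₁ = 2 * (M + CP + 9 / 2 * CP ^ 2 + CP * CL * CS) := ⟨_, rfl⟩
  have hC₁pos : 0 < C₁ := by rw [hC₁]; positivity
  refine ⟨8 * C₁ / c, by positivity, ?_⟩
  intro ε hε hε1 v q G hyp K₀ hK₀ hA Λ hΛ a ha s hs n hn hIH
  obtain ⟨hloc, hslice, hGi, hGε⟩ := hyp
  obtain ⟨φ, hφ⟩ := hTF a s n hn
  obtain ⟨s0, hs0⟩ : ∃ s0, s0 = s - rr 2 ^ 2 := ⟨_, rfl⟩
  have hs0' : s0 = s - 1 / 16 := by rw [hs0, rr_two]; norm_num
  have hs1 := hs.1
  have hs2 := hs.2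
  obtain ⟨β, hβ⟩ : ∃ β, β = min 0 (s + rr n ^ 2) := ⟨_, rfl⟩
  have hsβ : s < β := by
    rw [hβ]
    exact lt_min hs.2 (by have := pow_pos (rr_pos n) 2; linarith)
  have hβ0 : β ≤ 0 := by rw [hβ]; exact min_le_left _ _
  have hβn : β ≤ s + rr n ^ 2 := by rw [hβ]; exact min_le_right _ _
  obtain ⟨Φ, hΦ⟩ : ∃ Φ : ℝ → V → ℝ, Φ = fun t z => ∑ k ∈ Finset.Icc 2 n, φ k t z := ⟨_, rfl⟩
  have hΦsm : ContDiffOn ℝ ∞ (fun z : ℝ × V => Φ z.1 z.2) (Ioo (-1) β ×ˢ univ) := by
    rw [hΦ]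
    apply ContDiffOn.sum
    intro k _
    exact (hφ.smooth k).mono (prod_mono (fun t ht => ht.2.trans_le hβn) subset_rfl)
  have hΦsupp : ∀ t, ∀ z ∉ ball a (1 / 4), Φ t z = 0 := by
    intro t z hz
    rw [hΦ]
    apply Finset.sum_eq_zero
    intro k hk
    apply hφ.supp k hk t z
    intro h
    exact hz (ball_subset_ball ((rr_le (Finset.mem_Icc.1 hk).1).trans rr_two.le) h)
  have hball : ball a (1 / 4) ⊆ ball (0 : V) 1 := by
    apply ball_subset_ball'
    rw [mem_ball] at ha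
    linarith
  have hΦ1 : ∀ t, ∀ z ∉ ball (0 : V) 1, Φ t z = 0 := fun t z hz =>
    hΦsupp t z fun h => hz (hball h)
  have hΦpos : ∀ t ≤ s, ∀ z, 0 ≤ Φ t z := by
    intro t ht z
    rw [hΦ]
    exact hφ.pos t ht z
  have hΦslice : ∀ t ∈ Ioo (-1 : ℝ) β, ContDiff ℝ ∞ (Φ t) := fun t ht => slice_smooth hΦsm ht
  have hvβ : ContDiffOn ℝ ∞ (fun z : ℝ × V => v z.1 z.2) (Ioo (-1) β ×ˢ univ) :=
    hloc.smooth_v.mono (prod_mono (Ioo_subset_Ioo_right hβ0) subset_rfl)
  have hvslice : ∀ t ∈ Ioo (-1 : ℝ) 0, ContDiff ℝ ∞ (v t) := fun t ht =>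
    slice_smooth hloc.smooth_v ht
  obtain ⟨hct1, -⟩ := hC (-1) 0 v hloc.smooth_v
  obtain ⟨-, hct3⟩ := hC (-1) β v hvβ
  obtain ⟨hEc, hDc⟩ := hct3 Φ hΦsm (fun t _ => hΦ1 t)
  have hder := hE v q hloc (-1) β le_rfl hβ0 Φ hΦsm (fun t _ => hΦ1 t)
  obtain ⟨E, hEdef⟩ : ∃ E : ℝ → ℝ, E = fun t => ∫ z, nsq (v t) z * Φ t z := ⟨_, rfl⟩
  obtain ⟨D, hDdef⟩ : ∃ D : ℝ → ℝ, D = fun t => ∫ z, gsq (v t) z * Φ t z := ⟨_, rfl⟩
  rw [← hEdef] at hEc
  rw [← hDdef] at hDc
  have hsub : Icc s0 s ⊆ Ioo (-1) β := by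
    intro t ht
    exact ⟨by linarith [ht.1], ht.2.trans_lt hsβ⟩
  have hsub0 : Icc s0 s ⊆ Ioo (-1) 0 := hsub.trans (Ioo_subset_Ioo_right hβ0)
  have hE0 : ∀ t ∈ Icc s0 s, 0 ≤ E t := by
    intro t ht
    rw [hEdef]
    exact integral_nonneg fun z => mul_nonneg (nsq_nonneg _ _) (hΦpos t ht.2 z)
  have hD0 : ∀ t ∈ Icc s0 s, 0 ≤ D t := by
    intro t ht
    rw [hDdef]
    exact integral_nonneg fun z => mul_nonneg (gsq_nonneg _ _) (hΦpos t ht.2 z)
  have hEs0 : E s0 = 0 := by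
    rw [hEdef]
    have : ∀ z, Φ s0 z = 0 := by
      intro z
      rw [hΦ]
      apply Finset.sum_eq_zero
      intro k hk
      apply hφ.suppt k hk
      rw [hs0]
      have := rr_sq_le (Finset.mem_Icc.1 hk).1
      linarith
    simp [this]
  have hG0 : ∀ t ∈ Ioo (-1 : ℝ) 0, 0 ≤ G t := by
    intro t ht
    obtain ⟨P, hsl⟩ := hslice t ht
    exact (B2_nonneg _ _ _).trans hsl.grad
  obtain ⟨hTi, hTΛ⟩ := hTS Λ s n (fun i t => B2 a (rr i) (v t)) hΛ
    (fun i _ t => B2_nonneg _ _ _) (by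
      intro i hi
      rw [Finset.mem_Icc] at hi
      refine ⟨?_, (hIH i hi.1 hi.2).2⟩
      have h1 : ContinuousOn (fun t => B2 a (rr i) (v t)) (Icc (s - rr i ^ 2) s) := by
        apply (hct1 a (rr i)).2.mono
        refine subset_trans (Icc_subset_Icc_left ?_) hsub0
        rw [hs0]
        have := rr_sq_le hi.1
        linarith
      exact (h1.integrableOn_compact isCompact_Icc).mono_set Ioc_subset_Icc_self)
  rw [← hs0] at hTi hTΛ
  obtain ⟨T, hTdef⟩ : ∃ T : ℝ → ℝ, T = fun t => ∑ k ∈ Finset.Icc 5 n, if s - rr k ^ 2 < t then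
      √(1 / 8 ^ k) * √(rr k) * (16 ^ k * (4 ^ k * (Λ / 8 ^ (k - 3)) + B2 a (rr (k - 3)) (v t))
        + ∑ j ∈ Finset.Ico 3 (k - 2), √(32 ^ j) * √(8 ^ k) *
          (4 ^ k * (Λ / 8 ^ (j - 1)) + B2 a (rr (j - 1)) (v t))) else 0 := ⟨_, rfl⟩
  rw [← hTdef] at hTi
  have hTΛ' : ∫ t in Ioc s0 s, T t ≤ CS * Λ := by rw [hTdef]; exact hTΛ
  have hT0 : ∀ t ∈ Ioc s0 s, 0 ≤ T t := by
    intro t _
    rw [hTdef]
    apply Finset.sum_nonneg
    intro k _
    split_ifs
    · have h1 := B2_nonneg a (rr (k - 3)) (v t)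
      have h2 : 0 ≤ ∑ j ∈ Finset.Ico 3 (k - 2), √(32 ^ j) * √(8 ^ k) *
          (4 ^ k * (Λ / 8 ^ (j - 1)) + B2 a (rr (j - 1)) (v t)) := by
        apply Finset.sum_nonneg
        intro j _
        have h1 := B2_nonneg a (rr (j - 1)) (v t)
        positivity
      positivity
    · exact le_rfl
  have hIoc : Ioc s0 s ⊆ Ioo (-1) 0 := Ioc_subset_Icc_self.trans hsub0
  have hmain := absorb (E := E) (E' := fun t => -2 * (∫ z, gsq (v t) z * Φ t z)
          + (∫ z, nsq (v t) z * (deriv (fun s => Φ s z) t + lap (Φ t) z))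
          + ∫ z, (nsq (v t) z + 2 * q t z) * adv (v t) (Φ t) z) (D := D) (G := G) (T := T)
    (s0 := s0) (s1 := s) (ε := ε) (K := K₀) (CP := CP) (CL := CL) (CS := CS) (M := M) (Λ := Λ)
    (by rw [hs0']; linarith) (by rw [hs0']; linarith) hε hε1 hK₀ hCP hCL hCS hM0 hΛ
    (hEc.mono hsub) (by
      intro t ht
      rw [hEdef]
      exact hder t (hsub (Ioo_subset_Icc_self ht)))
    (hDc.mono hsub) hD0 hE0 hEs0 (hGi.mono_set hIoc) (fun t ht => hG0 t (hIoc ht))
    (by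
      refine le_trans ?_ hGε
      apply setIntegral_mono_set hGi
      · filter_upwards [ae_restrict_mem measurableSet_Ioo] with x hx using hG0 x hx
      · exact hIoc.eventuallyLE)
    hTi hT0 hTΛ' (by
      intro t ht
      have ht1 : t ∈ Icc s0 s := Ioo_subset_Icc_self ht
      have htβ := hsub ht1
      have ht0 := hsub0 ht1
      have hvt := hvslice t ht0
      have htA : t ∈ Ioo (-9 / 16 : ℝ) 0 := ⟨by linarith [ht.1], ht0.2⟩
      obtain ⟨P, hsl⟩ := hslice t ht0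
      have hH := heat_term hvt hM0 ha hΦsupp (t := t) (M := M) (by
        intro z
        have := hφ.heat t ht1.2 z
        rw [hΦ]
        exact this)
      have hH' : M * A2 0 (3 / 4) (v t) ≤ M * (K₀ * ε) :=
        mul_le_mul_of_nonneg_left (hA t htA) hM0
      have hsum : ∀ z, ∑ k ∈ (Finset.Icc 2 n).filter (fun k => s - rr k ^ 2 < t), φ k t z
          = Φ t z := by
        intro z
        rw [hΦ]
        apply Finset.sum_filter_of_ne
        intro k hk hne
        by_contra hcon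
        exact hne (hφ.suppt k hk t (not_lt.1 hcon) z)
      have hfil : ((Finset.Icc 2 n).filter (fun k => s - rr k ^ 2 < t)).filter (fun k => 5 ≤ k)
          = (Finset.Icc 5 n).filter (fun k => s - rr k ^ 2 < t) := by
        ext k
        simp only [Finset.mem_filter, Finset.mem_Icc]
        constructor
        · rintro ⟨⟨⟨h1, h2⟩, h3⟩, h4⟩
          exact ⟨⟨h4, h2⟩, h3⟩
        · rintro ⟨⟨h1, h2⟩, h3⟩
          exact ⟨⟨⟨by omega, h2⟩, h3⟩, h1⟩
      have hsum5 : ∀ z, ∑ k ∈ (Finset.Icc 5 n).filter (fun k => s - rr k ^ 2 < t), φ k t z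
          = ∑ k ∈ Finset.Icc 5 n, φ k t z := by
        intro z
        apply Finset.sum_filter_of_ne
        intro k hk hne
        rw [Finset.mem_Icc] at hk
        by_contra hcon
        exact hne (hφ.suppt k (Finset.mem_Icc.2 ⟨by omega, hk.2⟩) t (not_lt.1 hcon) z)
      have hF := hPK (v t) (q t) P (G t) hsl a ha
        ((Finset.Icc 2 n).filter (fun k => s - rr k ^ 2 < t)) (fun k => φ k t) (by
          intro k hk
          rw [Finset.mem_filter] at hk
          have hk1 := hk.1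
          refine ⟨(Finset.mem_Icc.1 hk1).1, ?_, hφ.supp k hk1 t, hφ.size k hk1 t ht1.2,
            hφ.grad k hk1 t ht1.2⟩
          exact slice_smooth (hφ.smooth k) (htβ.2.trans_le hβn))
        (by intro z; rw [hsum]; exact hΦpos t ht1.2 z)
        (by
          intro z
          rw [hfil, hsum, hsum5, hΦ]
          exact hφ.out t ht1.2 z)
        (by
          simp only [hsum]
          rw [hΦ]
          exact hφ.int t ht1.2)
      simp only [hsum] at hF
      rw [hfil] at hF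
      have hPS : ∑ k ∈ (Finset.Icc 5 n).filter (fun k => s - rr k ^ 2 < t),
          √(A2 a (rr k) (v t)) * PS a (v t) k ≤ CL * √Λ * T t := by
        rw [hTdef]
        simp only
        rw [← Finset.sum_filter, Finset.mul_sum]
        apply Finset.sum_le_sum
        intro k hk
        rw [Finset.mem_filter, Finset.mem_Icc] at hk
        apply pk_term hCL hL4 hΛ hvt hk.1.1
        intro i hi hik
        refine (hIH i hi (hik.trans hk.1.2)).1 t ?_ ht1.2
        have := rr_sq_le hik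
        linarith [hk.2]
      have hGt := hG0 t ht0
      have hsq : √(A2 0 (3 / 4) (v t)) ≤ √(K₀ * ε) := Real.sqrt_le_sqrt (hA t htA)
      have hF2 : CP * (G t * √(A2 0 (3 / 4) (v t)) + (√(G t) + G t)
            * √(∫ z, nsq (v t) z * Φ t z)
          + ∑ k ∈ (Finset.Icc 5 n).filter (fun k => s - rr k ^ 2 < t),
            √(A2 a (rr k) (v t)) * PS a (v t) k)
          ≤ CP * (G t * √(K₀ * ε) + (√(G t) + G t) * √(E t) + CL * √Λ * T t) := by
        apply mul_le_mul_of_nonneg_left _ hCP.le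
        have := mul_le_mul_of_nonneg_left hsq hGt
        rw [hEdef]
        linarith
      have hF3 := (le_abs_self _).trans (hF.trans hF2)
      have hF4 : (fun y => Φ t y) = Φ t := rfl
      rw [hF4] at hF3
      rw [hDdef]
      simp only
      linarith)
  rw [← hC₁] at hmain
  obtain ⟨X, hX⟩ : ∃ X, X = (1 + K₀) * ε + Λ * √Λ := ⟨_, rfl⟩
  rw [← hX] at hmain
  rw [← hX]
  have hc8 : 0 < c * 8 ^ n := by positivity
  have hsn : s0 ≤ s - rr (n + 1) ^ 2 := by
    rw [hs0]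
    have := rr_sq_le (show 2 ≤ n + 1 by omega)
    linarith
  have hval : 8 * C₁ / c * X / 8 ^ (n + 1) = C₁ * X / (c * 8 ^ n) := by
    rw [pow_succ]
    field_simp
  have hDii : ∀ α β' : ℝ, s0 ≤ α → α ≤ β' → β' ≤ s → IntervalIntegrable D volume α β' := by
    intro α β' h1 h2 h3
    apply ContinuousOn.intervalIntegrable
    rw [uIcc_of_le h2]
    exact (hDc.mono hsub).mono (Icc_subset_Icc h1 h3)
  refine ⟨?_, ?_⟩
  · intro t ht1 ht2
    rw [hval, le_div_iff₀ hc8]
    have ht : t ∈ Icc s0 s := ⟨hsn.trans ht1.le, ht2⟩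
    have h1 := hmain t ht
    have h2 : 0 ≤ ∫ x in s0..t, D x :=
      intervalIntegral.integral_nonneg ht.1 fun u hu => hD0 u ⟨hu.1, hu.2.trans ht.2⟩
    have h3 := low_term (nsq_cont (hvslice t (hsub0 ht))) (nsq_nonneg (v t))
      (hΦslice t (hsub ht)).continuous (hΦpos t ht2) (hΦ1 t) (a := a) (ρ := rr (n + 1))
      (κ := c * 8 ^ n) (by
        intro z hz
        rw [hΦ]
        exact hφ.low t ht1 ht2 z hz)
    have h4 : A2 a (rr (n + 1)) (v t) * (c * 8 ^ n) ≤ E t := by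
      rw [hEdef, mul_comm]
      exact h3
    linarith
  · rw [hval, le_div_iff₀ hc8]
    have hle : s - rr (n + 1) ^ 2 ≤ s := by
      have := pow_pos (rr_pos (n + 1)) 2
      linarith
    have h1 := hmain s ⟨by rw [hs0']; linarith, le_rfl⟩
    have h2 := hE0 s ⟨by rw [hs0']; linarith, le_rfl⟩
    have h3 : ∫ t in Ioc (s - rr (n + 1) ^ 2) s, B2 a (rr (n + 1)) (v t) * (c * 8 ^ n)
        ≤ ∫ t in Ioc (s - rr (n + 1) ^ 2) s, D t := by
      apply setIntegral_mono_on
      · apply Integrable.mul_const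
        have h5 : ContinuousOn (fun t => B2 a (rr (n + 1)) (v t)) (Icc (s - rr (n + 1) ^ 2) s) := by
          apply (hct1 a (rr (n + 1))).2.mono
          exact subset_trans (Icc_subset_Icc_left hsn) hsub0
        exact (h5.integrableOn_compact isCompact_Icc).mono_set Ioc_subset_Icc_self
      · exact (intervalIntegrable_iff_integrableOn_Ioc_of_le hle).1 (hDii _ _ hsn hle le_rfl)
      · exact measurableSet_Ioc
      · intro t ht
        have ht' : t ∈ Icc s0 s := ⟨hsn.trans ht.1.le, ht.2⟩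
        have h3 := low_term (gsq_cont (hvslice t (hsub0 ht'))) (gsq_nonneg (v t))
          (hΦslice t (hsub ht')).continuous (hΦpos t ht.2) (hΦ1 t) (a := a) (ρ := rr (n + 1))
          (κ := c * 8 ^ n) (by
            intro z hz
            rw [hΦ]
            exact hφ.low t ht.1 ht.2 z hz)
        rw [hDdef, mul_comm]
        exact h3
    rw [integral_mul_const, ← intervalIntegral.integral_of_le hle] at h3
    rw [← intervalIntegral.integral_of_le hle] at h3
    have h6 := intervalIntegral.integral_add_adjacent_intervals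
      (hDii s0 (s - rr (n + 1) ^ 2) le_rfl hsn hle) (hDii _ s hsn hle le_rfl)
    have h7 : 0 ≤ ∫ x in s0..(s - rr (n + 1) ^ 2), D x :=
      intervalIntegral.integral_nonneg hsn fun u hu => hD0 u ⟨hu.1, hu.2.trans hle⟩
    have h8 : 0 ≤ ∫ x in (s - rr (n + 1) ^ 2)..s, D x :=
      intervalIntegral.integral_nonneg hle fun u hu => hD0 u ⟨hsn.trans hu.1, hu.2⟩
    rw [← intervalIntegral.integral_of_le hle]
    linarith

end W612.MD
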