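import Mathlib

/-!
The real variable part of the induction step: a differential inequality with absorption.
-/

open MeasureTheory Set

namespace W612.MD

lemma sqrt_le_aux {G ε : ℝ} (hε : 0 < ε) (hG : 0 ≤ G) : √G ≤ √ε + G / √ε := by
  have h1 : 0 < √ε := Real.sqrt_pos.2 hε
  rw [← sub_nonneg]
  have h2 : √ε + G / √ε - √G = (√ε ^ 2 + √G ^ 2 - √G * √ε) / √ε := by
    rw [Real.sq_sqrt hG]
    field_simp
  rw [h2]
  apply div_nonneg _ h1.le
  nlinarith [sq_nonneg (√ε - √G), sq_nonneg (√ε + √G), sq_nonneg (√ε), sq_nonneg (√G)]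

lemma absorb {E E' D G T : ℝ → ℝ} {s0 s1 ε K CP CL CS M Λ : ℝ} (h01 : s0 ≤ s1)
    (hlen : s1 - s0 ≤ 1) (hε : 0 < ε) (hε1 : ε ≤ 1) (hK : 0 ≤ K) (hCP : 0 < CP) (hCL : 0 < CL)
    (hCS : 0 < CS) (hM : 0 ≤ M) (hΛ : 0 ≤ Λ)
    (hEc : ContinuousOn E (Icc s0 s1)) (hE' : ∀ t ∈ Ioo s0 s1, HasDerivAt E (E' t) t)
    (hDc : ContinuousOn D (Icc s0 s1)) (hD : ∀ t ∈ Icc s0 s1, 0 ≤ D t)
    (hE : ∀ t ∈ Icc s0 s1, 0 ≤ E t) (hE0 : E s0 = 0)
    (hGi : IntegrableOn G (Ioc s0 s1)) (hG : ∀ t ∈ Ioc s0 s1, 0 ≤ G t)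
    (hGε : ∫ t in Ioc s0 s1, G t ≤ ε)
    (hTi : IntegrableOn T (Ioc s0 s1)) (hT : ∀ t ∈ Ioc s0 s1, 0 ≤ T t)
    (hTΛ : ∫ t in Ioc s0 s1, T t ≤ CS * Λ)
    (hineq : ∀ t ∈ Ioo s0 s1, E' t ≤ -2 * D t + M * (K * ε)
      + CP * (G t * √(K * ε) + (√(G t) + G t) * √(E t) + CL * √Λ * T t)) :
    ∀ t ∈ Icc s0 s1, E t + 2 * ∫ x in s0..t, D x
      ≤ 2 * (M + CP + 9 / 2 * CP ^ 2 + CP * CL * CS) * ((1 + K) * ε + Λ * √Λ) := by
  obtain ⟨tm, htm, hmax⟩ := isCompact_Icc.exists_isMaxOn (nonempty_Icc.2 h01) hEc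
  obtain ⟨S, hS⟩ : ∃ S, S = E tm := ⟨_, rfl⟩
  have hS0 : 0 ≤ S := hS ▸ hE tm htm
  have hmax' : ∀ t ∈ Icc s0 s1, E t ≤ S := fun t ht => hS ▸ hmax ht
  have hsε : 0 < √ε := Real.sqrt_pos.2 hε
  obtain ⟨g, hg⟩ : ∃ g : ℝ → ℝ, g = fun t => M * (K * ε) + CP * (G t * √(K * ε)
      + (√ε + G t / √ε + G t) * √S + CL * √Λ * T t) := ⟨_, rfl⟩
  have hgi : IntegrableOn g (Ioc s0 s1) := by
    rw [hg]
    have hc : ∀ c : ℝ, IntegrableOn (fun _ : ℝ => c) (Ioc s0 s1) := fun c =>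
      integrableOn_const (by simp)
    refine Integrable.add (hc _) (Integrable.const_mul ?_ _)
    refine Integrable.add (Integrable.add (hGi.mul_const _) ?_) (hTi.const_mul _)
    exact Integrable.mul_const (Integrable.add (Integrable.add (hc _) (hGi.div_const _)) hGi) _
  have hg0 : ∀ t ∈ Ioc s0 s1, 0 ≤ g t := by
    intro t ht
    have h1 := hG t ht
    have h2 := hT t ht
    rw [hg]
    positivity
  have hkey : ∀ t ∈ Icc s0 s1, E t + 2 * ∫ x in s0..t, D x ≤ ∫ x in Ioc s0 s1, g x := by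
    intro t ht
    have hDi : IntervalIntegrable D volume s0 t := by
      apply ContinuousOn.intervalIntegrable
      rw [uIcc_of_le ht.1]
      exact hDc.mono (Icc_subset_Icc_right ht.2)
    have hgt : IntegrableOn g (Ioc s0 t) := hgi.mono_set (Ioc_subset_Ioc_right ht.2)
    have hgI : IntervalIntegrable g volume s0 t :=
      (intervalIntegrable_iff_integrableOn_Ioc_of_le ht.1).2 hgt
    have hφi : IntervalIntegrable (fun x => -2 * D x + g x) volume s0 t :=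
      (hDi.const_mul _).add hgI
    have h1 := intervalIntegral.sub_le_integral_of_hasDeriv_right_of_le (g := E) (g' := E')
      (φ := fun x => -2 * D x + g x) ht.1 (hEc.mono (Icc_subset_Icc_right ht.2))
      (fun x hx => (hE' x ⟨hx.1, hx.2.trans_le ht.2⟩).hasDerivWithinAt)
      (by
        rw [integrableOn_Icc_iff_integrableOn_Ioc]
        exact (intervalIntegrable_iff_integrableOn_Ioc_of_le ht.1).1 hφi)
      (by
        intro x hx
        have hx' : x ∈ Ioo s0 s1 := ⟨hx.1, hx.2.trans_le ht.2⟩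
        refine (hineq x hx').trans ?_
        rw [hg]
        have hG0 := hG x ⟨hx'.1, hx'.2.le⟩
        have hT0 := hT x ⟨hx'.1, hx'.2.le⟩
        have h2 : √(G x) + G x ≤ √ε + G x / √ε + G x := by
          have := sqrt_le_aux hε hG0
          linarith
        have h3 : √(E x) ≤ √S := Real.sqrt_le_sqrt (hmax' x ⟨hx'.1.le, hx'.2.le⟩)
        have h4 : (√(G x) + G x) * √(E x) ≤ (√ε + G x / √ε + G x) * √S :=
          mul_le_mul h2 h3 (Real.sqrt_nonneg _) (by positivity)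
        have h5 : CP * (G x * √(K * ε) + (√(G x) + G x) * √(E x) + CL * √Λ * T x)
            ≤ CP * (G x * √(K * ε) + (√ε + G x / √ε + G x) * √S + CL * √Λ * T x) :=
          mul_le_mul_of_nonneg_left (by linarith) hCP.le
        simp only
        linarith)
    rw [intervalIntegral.integral_add (hDi.const_mul _) hgI, intervalIntegral.integral_const_mul,
      hE0, intervalIntegral.integral_of_le (f := g) ht.1] at h1
    have h2 : ∫ x in Ioc s0 t, g x ≤ ∫ x in Ioc s0 s1, g x := by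
      apply setIntegral_mono_set hgi
      · filter_upwards [ae_restrict_mem measurableSet_Ioc] with x hx using hg0 x hx
      · exact (Ioc_subset_Ioc_right ht.2).eventuallyLE
    linarith
  have hval : ∫ x in Ioc s0 s1, g x ≤ M * (K * ε) + CP * (ε * √(K * ε) + 3 * √ε * √S
      + CL * √Λ * (CS * Λ)) := by
    have hc : ∀ c : ℝ, IntegrableOn (fun _ : ℝ => c) (Ioc s0 s1) := fun c =>
      integrableOn_const (by simp)
    have hcv : ∀ c : ℝ, ∫ _ in Ioc s0 s1, c = (s1 - s0) * c := by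
      intro c
      rw [setIntegral_const]
      simp [Measure.real, h01]
    have hA := hGi.mul_const (√(K * ε))
    have hB1 : IntegrableOn (fun t => √ε + G t / √ε) (Ioc s0 s1) := (hc _).add (hGi.div_const _)
    have hB2 : IntegrableOn (fun t => √ε + G t / √ε + G t) (Ioc s0 s1) := hB1.add hGi
    have hB3 : IntegrableOn (fun t => (√ε + G t / √ε + G t) * √S) (Ioc s0 s1) := hB2.mul_const _
    have hC : IntegrableOn (fun t => CL * √Λ * T t) (Ioc s0 s1) := hTi.const_mul _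
    have hAB : IntegrableOn (fun t => G t * √(K * ε) + (√ε + G t / √ε + G t) * √S)
      (Ioc s0 s1) := hA.add hB3
    have hABC : IntegrableOn (fun t => G t * √(K * ε) + (√ε + G t / √ε + G t) * √S
      + CL * √Λ * T t) (Ioc s0 s1) := hAB.add hC
    have i1 : ∫ x in Ioc s0 s1, g x = (s1 - s0) * (M * (K * ε))
        + CP * ∫ t in Ioc s0 s1, (G t * √(K * ε) + (√ε + G t / √ε + G t) * √S
          + CL * √Λ * T t) := by
      rw [hg, integral_add (hc _) (hABC.const_mul _), hcv,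
        integral_const_mul CP (fun t => G t * √(K * ε) + (√ε + G t / √ε + G t) * √S
          + CL * √Λ * T t)]
    have i2 : ∫ t in Ioc s0 s1, (G t * √(K * ε) + (√ε + G t / √ε + G t) * √S
          + CL * √Λ * T t) = (∫ t in Ioc s0 s1, G t) * √(K * ε)
          + ((s1 - s0) * √ε + (∫ t in Ioc s0 s1, G t) / √ε + ∫ t in Ioc s0 s1, G t) * √S
          + CL * √Λ * ∫ t in Ioc s0 s1, T t := by
      rw [integral_add hAB hC, integral_add hA hB3, integral_mul_const, integral_mul_const,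
        integral_const_mul, integral_add hB1 hGi, integral_add (hc _) (hGi.div_const _),
        integral_div, hcv]
    rw [i1, i2]
    have e1 : ε / √ε = √ε := Real.div_sqrt
    have e2 : ε ≤ √ε := by
      have : √ε ≤ 1 := Real.sqrt_le_one.2 hε1
      nlinarith [Real.sq_sqrt hε.le]
    have e3 : 0 ≤ s1 - s0 := sub_nonneg.2 h01
    obtain ⟨I, hI⟩ : ∃ I, I = ∫ t in Ioc s0 s1, G t := ⟨_, rfl⟩
    obtain ⟨J, hJ⟩ : ∃ J, J = ∫ t in Ioc s0 s1, T t := ⟨_, rfl⟩
    rw [← hI, ← hJ]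
    rw [← hI] at hGε
    rw [← hJ] at hTΛ
    have e4 : I / √ε ≤ √ε := by
      exact (div_le_div_of_nonneg_right hGε hsε.le).trans e1.le
    have k1 : (s1 - s0) * (M * (K * ε)) ≤ M * (K * ε) :=
      mul_le_of_le_one_left (by positivity) hlen
    have k2 : (s1 - s0) * √ε ≤ √ε := mul_le_of_le_one_left hsε.le hlen
    have k3 : I * √(K * ε) ≤ ε * √(K * ε) := mul_le_mul_of_nonneg_right hGε (Real.sqrt_nonneg _)
    have k4 : ((s1 - s0) * √ε + I / √ε + I) * √S ≤ 3 * √ε * √S :=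
      mul_le_mul_of_nonneg_right (by linarith) (Real.sqrt_nonneg _)
    have k5 : CL * √Λ * J ≤ CL * √Λ * (CS * Λ) :=
      mul_le_mul_of_nonneg_left hTΛ (by positivity)
    have k6 : CP * (I * √(K * ε) + ((s1 - s0) * √ε + I / √ε + I) * √S + CL * √Λ * J)
        ≤ CP * (ε * √(K * ε) + 3 * √ε * √S + CL * √Λ * (CS * Λ)) :=
      mul_le_mul_of_nonneg_left (by linarith) hCP.le
    linarith
  -- Young
  have hSle : S ≤ ∫ x in Ioc s0 s1, g x := by
    have h1 := hkey tm htm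
    have h2 : 0 ≤ ∫ x in s0..tm, D x :=
      intervalIntegral.integral_nonneg htm.1 fun u hu => hD u ⟨hu.1, hu.2.trans htm.2⟩
    rw [hS]
    linarith
  obtain ⟨I, hI⟩ : ∃ I, I = ∫ x in Ioc s0 s1, g x := ⟨_, rfl⟩
  rw [← hI] at hval hSle hkey
  have y1 : CP * (3 * √ε * √S) ≤ S / 2 + 9 / 2 * CP ^ 2 * ε := by
    have a1 := Real.sq_sqrt hS0
    have a2 := Real.sq_sqrt hε.le
    have a3 := sq_nonneg (√S - 3 * CP * √ε)
    have a4 : (√S - 3 * CP * √ε) ^ 2 = S - 2 * (CP * (3 * √ε * √S)) + 9 * CP ^ 2 * ε := by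
      calc (√S - 3 * CP * √ε) ^ 2 = √S ^ 2 - 2 * (CP * (3 * √ε * √S)) + 9 * CP ^ 2 * √ε ^ 2 := by
            ring
        _ = _ := by rw [a1, a2]
    linarith
  have y2 : ε * √(K * ε) ≤ (1 + K) * ε := by
    have a1 : √(K * ε) ≤ 1 + K := by
      apply Real.sqrt_le_iff.2 ⟨by linarith, ?_⟩
      have : K * ε ≤ K := mul_le_of_le_one_right hK hε1
      nlinarith
    nlinarith
  have y3 : I ≤ (M + CP + 9 / 2 * CP ^ 2 + CP * CL * CS) * ((1 + K) * ε + Λ * √Λ) + S / 2 := by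
    have a0 : 0 ≤ Λ * √Λ := mul_nonneg hΛ (Real.sqrt_nonneg _)
    have a1 : CP * (ε * √(K * ε)) ≤ CP * ((1 + K) * ε) := mul_le_mul_of_nonneg_left y2 hCP.le
    have a2 : 0 ≤ K * ε := by positivity
    have a3 : M * (K * ε) ≤ M * ((1 + K) * ε) :=
      mul_le_mul_of_nonneg_left (by linarith) hM
    have a4 : 9 / 2 * CP ^ 2 * ε ≤ 9 / 2 * CP ^ 2 * ((1 + K) * ε) :=
      mul_le_mul_of_nonneg_left (by linarith) (by positivity)
    have a5 : 0 ≤ M * (Λ * √Λ) := mul_nonneg hM a0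
    have a6 : 0 ≤ CP * (Λ * √Λ) := mul_nonneg hCP.le a0
    have a7 : 0 ≤ 9 / 2 * CP ^ 2 * (Λ * √Λ) := mul_nonneg (by positivity) a0
    have a8 : 0 ≤ CP * CL * CS * ((1 + K) * ε) := by positivity
    have a9 : CP * (ε * √(K * ε) + 3 * √ε * √S + CL * √Λ * (CS * Λ))
        = CP * (ε * √(K * ε)) + CP * (3 * √ε * √S) + CP * CL * CS * (Λ * √Λ) := by ring
    rw [a9] at hval
    have a10 : (M + CP + 9 / 2 * CP ^ 2 + CP * CL * CS) * ((1 + K) * ε + Λ * √Λ)
        = M * ((1 + K) * ε) + CP * ((1 + K) * ε) + 9 / 2 * CP ^ 2 * ((1 + K) * ε)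
          + CP * CL * CS * ((1 + K) * ε) + M * (Λ * √Λ) + CP * (Λ * √Λ)
          + 9 / 2 * CP ^ 2 * (Λ * √Λ) + CP * CL * CS * (Λ * √Λ) := by ring
    rw [a10]
    linarith
  intro t ht
  refine (hkey t ht).trans ?_
  have a10 : 2 * (M + CP + 9 / 2 * CP ^ 2 + CP * CL * CS) * ((1 + K) * ε + Λ * √Λ)
    = 2 * ((M + CP + 9 / 2 * CP ^ 2 + CP * CL * CS) * ((1 + K) * ε + Λ * √Λ)) := by ring
  rw [a10]
  linarith

end W612.MD
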